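import Pool.Agent.Helper63.GB2.Defs

/-!
# MP_02f2ca_gt, dimension two : module B5 (crude counting in the mesh)
-/

open Set MeasureTheory Filter Topology

namespace GB

namespace MeshCrude

theorem norm_le_of_coords (z : ℂ) (h1 : |z.re| ≤ 1 / 2) (h2 : |z.im| ≤ 1 / 2) : ‖z‖ < 1 := by
  have h3 : ‖z‖ ≤ |z.re| + |z.im| := Complex.norm_le_abs_re_add_abs_im z
  have h4 : ‖z‖ ^ 2 = z.re ^ 2 + z.im ^ 2 := by
    rw [← Complex.normSq_eq_norm_sq, Complex.normSq_apply]; ring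
  have h5 : z.re ^ 2 ≤ 1 / 4 := by
    have := sq_le_sq' (abs_le.1 h1).1 (abs_le.1 h1).2
    norm_num at this ⊢; linarith
  have h6 : z.im ^ 2 ≤ 1 / 4 := by
    have := sq_le_sq' (abs_le.1 h2).1 (abs_le.1 h2).2
    norm_num at this ⊢; linarith
  nlinarith [norm_nonneg z]

theorem norm_fr2_lt (α : ℝ) (v : ℤ × ℤ) : ‖fr2 α v‖ < 1 := by
  apply norm_le_of_coords
  · show |(v.1 : ℝ) * α - (round ((v.1 : ℝ) * α) : ℤ)| ≤ 1 / 2
    exact abs_sub_round _
  · show |(v.2 : ℝ) * α - (round ((v.2 : ℝ) * α) : ℤ)| ≤ 1 / 2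
    exact abs_sub_round _

/-- lattice point -/
noncomputable def mb' (L : ℕ) (q h : ℂ) (s : ℤ × ℤ) : ℂ := q * (h + gi s / (L : ℂ))

theorem norm_mb_sub (α : ℝ) (L : ℕ) (hL : 1 ≤ L) (q h : ℂ) (hq : ‖q‖ = 1) (s v : ℤ × ℤ) :
    ‖mb α L q h s v - mb' L q h s‖ < 1 / L := by
  have hL0 : (0 : ℝ) < L := by exact_mod_cast hL
  have : mb α L q h s v - mb' L q h s = q * (fr2 α v / (L : ℂ)) := by
    unfold mb mb'; ring
  rw [this, norm_mul, hq, one_mul, norm_div, Complex.norm_natCast]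
  exact div_lt_div_of_pos_right (norm_fr2_lt α v) hL0

theorem int_count (x : ℝ) (n : ℕ) (S : Finset ℤ) (hS : ∀ a ∈ S, |(a : ℝ) - x| ≤ n) :
    S.card ≤ 2 * n + 1 := by
  have hsub : S ⊆ Finset.Icc ⌈x - n⌉ ⌊x + n⌋ := by
    intro a ha
    have := abs_le.1 (hS a ha)
    rw [Finset.mem_Icc]
    constructor
    · apply Int.ceil_le.2; linarith
    · apply Int.le_floor.2; linarith
  refine (Finset.card_le_card hsub).trans ?_
  rw [Int.card_Icc]
  have h1 : (⌊x + n⌋ : ℝ) ≤ x + n := Int.floor_le _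
  have h2 : x - n ≤ (⌈x - n⌉ : ℝ) := Int.le_ceil _
  have h3 : ((⌊x + n⌋ - ⌈x - n⌉ : ℤ) : ℝ) ≤ ((2 * n : ℤ) : ℝ) := by
    push_cast; linarith
  have h4 : ⌊x + n⌋ - ⌈x - n⌉ ≤ 2 * (n : ℤ) := by exact_mod_cast h3
  omega

theorem fiber_count (t : ℂ) (L R : ℕ) (hL : 1 ≤ L) (hR : 1 ≤ R) (V : Finset (ℤ × ℤ))
    (hV : ∀ v ∈ V, ‖gi v / (L : ℂ) + t‖ ≤ R + 1) : V.card ≤ (5 * R * L) ^ 2 := by
  have hL0 : (0 : ℝ) < L := by exact_mod_cast hL
  have key1 : ∀ v ∈ V, |((v.1 : ℤ) : ℝ) - (-(L * t.re))| ≤ ((R + 1) * L : ℕ) := by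
    intro v hv
    have h1 := (Complex.abs_re_le_norm _).trans (hV v hv)
    have h2 : (gi v / (L : ℂ) + t).re = (v.1 : ℝ) / L + t.re := by
      simp [gi, Complex.add_re, Complex.div_natCast_re]
    rw [h2] at h1
    have h3 : (v.1 : ℝ) - (-(L * t.re)) = L * ((v.1 : ℝ) / L + t.re) := by
      field_simp; ring
    rw [h3, abs_mul, abs_of_pos hL0]
    push_cast
    nlinarith
  have key2 : ∀ v ∈ V, |((v.2 : ℤ) : ℝ) - (-(L * t.im))| ≤ ((R + 1) * L : ℕ) := by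
    intro v hv
    have h1 := (Complex.abs_im_le_norm _).trans (hV v hv)
    have h2 : (gi v / (L : ℂ) + t).im = (v.2 : ℝ) / L + t.im := by
      simp [gi, Complex.add_im, Complex.div_natCast_im]
    rw [h2] at h1
    have h3 : (v.2 : ℝ) - (-(L * t.im)) = L * ((v.2 : ℝ) / L + t.im) := by
      field_simp; ring
    rw [h3, abs_mul, abs_of_pos hL0]
    push_cast
    nlinarith
  have hsub : V ⊆ (V.image Prod.fst) ×ˢ (V.image Prod.snd) := by
    intro v hv
    rw [Finset.mem_product]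
    exact ⟨Finset.mem_image_of_mem _ hv, Finset.mem_image_of_mem _ hv⟩
  have c1 : (V.image Prod.fst).card ≤ 2 * ((R + 1) * L) + 1 := by
    apply int_count (-(L * t.re))
    intro a ha
    obtain ⟨v, hv, rfl⟩ := Finset.mem_image.1 ha
    exact key1 v hv
  have c2 : (V.image Prod.snd).card ≤ 2 * ((R + 1) * L) + 1 := by
    apply int_count (-(L * t.im))
    intro a ha
    obtain ⟨v, hv, rfl⟩ := Finset.mem_image.1 ha
    exact key2 v hv
  have h5 : 2 * ((R + 1) * L) + 1 ≤ 5 * R * L := by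
    have : 1 ≤ R * L := Nat.one_le_iff_ne_zero.2 (by positivity)
    have h6 : L ≤ R * L := Nat.le_mul_of_pos_left L hR
    nlinarith
  calc V.card ≤ ((V.image Prod.fst) ×ˢ (V.image Prod.snd)).card := Finset.card_le_card hsub
    _ = (V.image Prod.fst).card * (V.image Prod.snd).card := Finset.card_product _ _
    _ ≤ (5 * R * L) * (5 * R * L) := Nat.mul_le_mul (c1.trans h5) (c2.trans h5)
    _ = (5 * R * L) ^ 2 := by ring

theorem packing (L : ℕ) (hL : 1 ≤ L) (q h x₀ : ℂ) (hq : ‖q‖ = 1) (E : Set ℂ)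
    (hE : Bornology.IsBounded E) (S : Finset (ℤ × ℤ))
    (hS : ∀ s ∈ S, ∃ y ∈ E, ‖y - (mb' L q h s + q * x₀)‖ < 1 / L) :
    (S.card : ℝ) * Real.pi ≤ 4 * (L : ℝ) ^ 2 *
      (volume (Metric.cthickening (2 / (L : ℝ)) E)).toReal := by
  have hL0 : (0 : ℝ) < L := by exact_mod_cast hL
  set r : ℝ := 1 / (2 * L) with hr
  have hr0 : 0 < r := by positivity
  set c : ℤ × ℤ → ℂ := fun s => mb' L q h s + q * x₀ with hc
  have hdist : ∀ s s' : ℤ × ℤ, s ≠ s' → 1 / (L : ℝ) ≤ dist (c s) (c s') := by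
    intro s s' hne
    have h1 : c s - c s' = q * ((gi s - gi s') / (L : ℂ)) := by
      simp only [hc, mb']; ring
    rw [dist_eq_norm, h1, norm_mul, hq, one_mul, norm_div, Complex.norm_natCast]
    apply div_le_div_of_nonneg_right _ hL0.le
    by_cases h2 : s.1 = s'.1
    · have h3 : s.2 ≠ s'.2 := fun h3 => hne (Prod.ext h2 h3)
      have h4 : (1 : ℝ) ≤ |((s.2 - s'.2 : ℤ) : ℝ)| := by
        have : 1 ≤ |s.2 - s'.2| := Int.one_le_abs (sub_ne_zero.2 h3)
        exact_mod_cast this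
      have h5 : (gi s - gi s').im = ((s.2 - s'.2 : ℤ) : ℝ) := by
        simp [gi]
      rw [← h5] at h4
      exact h4.trans (Complex.abs_im_le_norm _)
    · have h4 : (1 : ℝ) ≤ |((s.1 - s'.1 : ℤ) : ℝ)| := by
        have : 1 ≤ |s.1 - s'.1| := Int.one_le_abs (sub_ne_zero.2 h2)
        exact_mod_cast this
      have h5 : (gi s - gi s').re = ((s.1 - s'.1 : ℤ) : ℝ) := by
        simp [gi]
      rw [← h5] at h4
      exact h4.trans (Complex.abs_re_le_norm _)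
  have hdisj : (S : Set (ℤ × ℤ)).PairwiseDisjoint (fun s => Metric.ball (c s) r) := by
    intro s _ s' _ hne
    apply Metric.ball_disjoint_ball
    have := hdist s s' hne
    have h2 : r + r = 1 / (L : ℝ) := by rw [hr]; field_simp; ring
    rw [h2]; exact this
  have hsub : (⋃ s ∈ S, Metric.ball (c s) r) ⊆ Metric.cthickening (2 / (L : ℝ)) E := by
    intro z hz
    simp only [Set.mem_iUnion] at hz
    obtain ⟨s, hs, hz⟩ := hz
    obtain ⟨y, hy, hyd⟩ := hS s hs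
    apply Metric.mem_cthickening_of_dist_le z y _ _ hy
    have h1 : dist z (c s) < r := hz
    have h2 : dist (c s) y < 1 / L := by rw [dist_comm, dist_eq_norm]; exact hyd
    have h3 : r + 1 / (L : ℝ) ≤ 2 / L := by
      rw [hr, div_add_div _ _ (by positivity) (by positivity), div_le_div_iff₀ (by positivity) (by positivity)]
      nlinarith
    linarith [dist_triangle z (c s) y]
  have hfin : volume (Metric.cthickening (2 / (L : ℝ)) E) ≠ ⊤ :=
    (hE.cthickening.measure_lt_top).ne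
  have h1 : ∑ s ∈ S, volume (Metric.ball (c s) r) ≤ volume (Metric.cthickening (2 / (L : ℝ)) E) := by
    rw [← measure_biUnion_finset hdisj (fun s _ => measurableSet_ball)]
    exact measure_mono hsub
  have h2 : ∑ s ∈ S, volume (Metric.ball (c s) r) = (S.card : ENNReal) * (ENNReal.ofReal r ^ 2 * NNReal.pi) := by
    rw [Finset.sum_congr rfl (fun s _ => Complex.volume_ball (c s) r), Finset.sum_const, nsmul_eq_mul]
  rw [h2] at h1
  have h3 := (ENNReal.toReal_le_toReal (ne_top_of_le_ne_top hfin h1) hfin).2 h1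
  rw [ENNReal.toReal_mul, ENNReal.toReal_mul, ENNReal.toReal_natCast, ENNReal.toReal_pow,
    ENNReal.toReal_ofReal hr0.le] at h3
  have h4 : ((NNReal.pi : ENNReal)).toReal = Real.pi := by simp
  rw [h4] at h3
  have h5 : (S.card : ℝ) * (r ^ 2 * Real.pi) = (S.card : ℝ) * Real.pi / (4 * (L : ℝ) ^ 2) := by
    rw [hr]; field_simp; ring
  rw [h5, div_le_iff₀ (by positivity)] at h3
  linarith

end MeshCrude

open MeshCrude

open Classical in
theorem mesh_crude (α : ℝ) (L R : ℕ) (hL : 1 ≤ L) (hR : 1 ≤ R) (κ : ℝ) (hκ : |κ| ≤ L)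
    (q h η x₀ : ℂ) (hq : ‖q‖ = 1) (E : Set ℂ) (hE : Bornology.IsBounded E) (B : ℕ) :
    ((((boxZ B) ×ˢ (boxZ B)).filter
        (fun p => ‖md α L q h η κ p.1 p.2‖ ≤ R ∧ mb α L q h p.1 p.2 + q * x₀ ∈ E)).card : ℝ) ≤
      34 * (R : ℝ) ^ 2 * (L : ℝ) ^ 4 * (volume (Metric.cthickening (2 / (L : ℝ)) E)).toReal := by
  have hL0 : (0 : ℝ) < L := by exact_mod_cast hL
  have hR0 : (0 : ℝ) < R := by exact_mod_cast hR
  set F := ((boxZ B) ×ˢ (boxZ B)).filter
        (fun p => ‖md α L q h η κ p.1 p.2‖ ≤ R ∧ mb α L q h p.1 p.2 + q * x₀ ∈ E) with hF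
  have hq0 : q ≠ 0 := by
    intro h0; rw [h0, norm_zero] at hq; exact zero_ne_one hq
  have hfib : ∀ s ∈ F.image Prod.fst, (F.filter (fun p => p.1 = s)).card ≤ (5 * R * L) ^ 2 := by
    intro s _
    have hinj : Set.InjOn Prod.snd ((F.filter (fun p => p.1 = s) : Finset _) : Set ((ℤ × ℤ) × (ℤ × ℤ))) := by
      intro p hp p' hp' he
      have h1 := (Finset.mem_filter.1 (Finset.mem_coe.1 hp)).2
      have h2 := (Finset.mem_filter.1 (Finset.mem_coe.1 hp')).2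
      exact Prod.ext (h1.trans h2.symm) he
    rw [← Finset.card_image_of_injOn hinj]
    apply fiber_count (q⁻¹ * (Complex.I * (κ : ℂ) * mb' L q h s) + η) L R hL hR
    intro v hv
    obtain ⟨p, hp, rfl⟩ := Finset.mem_image.1 hv
    obtain ⟨hp1, hp2⟩ := Finset.mem_filter.1 hp
    obtain ⟨_, hp3, _⟩ := Finset.mem_filter.1 hp1
    have e1 : gi p.2 / (L : ℂ) + (q⁻¹ * (Complex.I * (κ : ℂ) * mb' L q h s) + η) =
        q⁻¹ * (md α L q h η κ p.1 p.2 - Complex.I * (κ : ℂ) * (mb α L q h p.1 p.2 - mb' L q h p.1)) := by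
      rw [hp2]
      unfold md
      field_simp
      ring
    rw [e1, norm_mul, norm_inv, hq, inv_one, one_mul]
    have e2 : ‖Complex.I * (κ : ℂ) * (mb α L q h p.1 p.2 - mb' L q h p.1)‖ ≤ 1 := by
      rw [norm_mul, norm_mul, Complex.norm_I, one_mul, Complex.norm_real, Real.norm_eq_abs]
      have e3 := (norm_mb_sub α L hL q h hq p.1 p.2).le
      calc |κ| * ‖mb α L q h p.1 p.2 - mb' L q h p.1‖ ≤ L * (1 / L) :=
            mul_le_mul hκ e3 (norm_nonneg _) hL0.le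
        _ = 1 := by field_simp
    calc ‖md α L q h η κ p.1 p.2 - Complex.I * (κ : ℂ) * (mb α L q h p.1 p.2 - mb' L q h p.1)‖
        ≤ ‖md α L q h η κ p.1 p.2‖ + ‖Complex.I * (κ : ℂ) * (mb α L q h p.1 p.2 - mb' L q h p.1)‖ :=
          norm_sub_le _ _
      _ ≤ R + 1 := add_le_add hp3 e2
  have hcard : F.card ≤ (5 * R * L) ^ 2 * (F.image Prod.fst).card :=
    Finset.card_le_mul_card_image F _ hfib
  have hpack := packing L hL q h x₀ hq E hE (F.image Prod.fst) (by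
    intro s hs
    obtain ⟨p, hp, rfl⟩ := Finset.mem_image.1 hs
    obtain ⟨_, _, hp4⟩ := Finset.mem_filter.1 hp
    refine ⟨_, hp4, ?_⟩
    have : mb α L q h p.1 p.2 + q * x₀ - (mb' L q h p.1 + q * x₀) =
        mb α L q h p.1 p.2 - mb' L q h p.1 := by ring
    rw [this]
    exact norm_mb_sub α L hL q h hq p.1 p.2)
  have hpi : (3 : ℝ) < Real.pi := Real.pi_gt_three
  have hpi2 : (3.14 : ℝ) < Real.pi := Real.pi_gt_d2
  set V := (volume (Metric.cthickening (2 / (L : ℝ)) E)).toReal with hV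
  have hV0 : 0 ≤ V := ENNReal.toReal_nonneg
  have hcardR : (F.card : ℝ) ≤ (5 * R * L) ^ 2 * ((F.image Prod.fst).card : ℝ) := by
    exact_mod_cast hcard
  have hS : ((F.image Prod.fst).card : ℝ) * 3.14 ≤ 4 * (L : ℝ) ^ 2 * V :=
    (mul_le_mul_of_nonneg_left hpi2.le (Nat.cast_nonneg _)).trans hpack
  have hpos : (0 : ℝ) ≤ (R : ℝ) ^ 2 * (L : ℝ) ^ 2 := by positivity
  have hS' : ((F.image Prod.fst).card : ℝ) ≤ (1.36 : ℝ) * (L : ℝ) ^ 2 * V := by
    have : 0 ≤ (L : ℝ) ^ 2 * V := by positivity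
    nlinarith
  calc (F.card : ℝ) ≤ (5 * R * L) ^ 2 * ((F.image Prod.fst).card : ℝ) := hcardR
    _ ≤ (5 * R * L) ^ 2 * ((1.36 : ℝ) * (L : ℝ) ^ 2 * V) :=
        mul_le_mul_of_nonneg_left hS' (by positivity)
    _ = 34 * (R : ℝ) ^ 2 * (L : ℝ) ^ 4 * V := by ring

end GB
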